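import Pool.Agent.MP_ca0a54_nt.H24.Spec

/-!
Row DET: an almost periodic holomorphic function has its real zeros near a lattice.
-/

open Complex MeasureTheory Set Topology

namespace Pool.Agent.MP_ca0a54_nt.H18

open Pool.Agent.MP_ca0a54_nt.H24

/-- `exp (2 π i z)`. -/
noncomputable def ee (z : ℂ) : ℂ := exp (2 * Real.pi * I * z)

/-- The kernel `q / (q - 1)`. -/
noncomputable def kp (z : ℂ) : ℂ := ee z / (ee z - 1)

theorem ee_norm (z : ℂ) : ‖ee z‖ = Real.exp (-2 * Real.pi * z.im) := by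
  unfold ee
  rw [norm_exp]
  congr 1
  simp

theorem ee_re (z : ℂ) :
    (ee z).re = Real.exp (-2 * Real.pi * z.im) * Real.cos (2 * Real.pi * z.re) := by
  unfold ee
  rw [exp_re]
  congr 2 <;> simp

theorem ee_add (z w : ℂ) : ee (z + w) = ee z * ee w := by
  unfold ee
  rw [mul_add, exp_add]

theorem ee_zero : ee 0 = 1 := by simp [ee]

theorem ee_int (n : ℤ) : ee n = 1 := by
  unfold ee
  rw [exp_eq_one_iff]
  exact ⟨n, by ring⟩

theorem ee_add_one (z : ℂ) : ee (z + 1) = ee z := by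
  rw [ee_add, show (1 : ℂ) = ((1 : ℤ) : ℂ) by simp, ee_int, mul_one]

theorem kp_add_one (z : ℂ) : kp (z + 1) = kp z := by
  unfold kp
  rw [ee_add_one]

theorem ee_diff : Differentiable ℂ ee := by
  unfold ee
  fun_prop

theorem ee_cont : Continuous ee := ee_diff.continuous

theorem ee_ne_one {z : ℂ} (h0 : z ≠ 0) (h1 : -1 < z.re) (h2 : z.re < 1) : ee z ≠ 1 := by
  intro h
  unfold ee at h
  obtain ⟨n, hn⟩ := exp_eq_one_iff.1 h
  have hp : (2 * Real.pi * I : ℂ) ≠ 0 := two_pi_I_ne_zero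
  have hz : z = n := by
    apply mul_left_cancel₀ hp
    rw [hn]
    ring
  rw [hz] at h0 h1 h2
  simp only [intCast_re] at h1 h2
  have a1 : (-1 : ℤ) < n := by exact_mod_cast h1
  have a2 : n < 1 := by exact_mod_cast h2
  have : n = 0 := by omega
  rw [this] at h0
  simp at h0

theorem kp_vert {z : ℂ} (h1 : -3 / 4 ≤ z.re) (h2 : z.re ≤ -1 / 4) :
    ‖kp z‖ ≤ Real.exp (-2 * Real.pi * max z.im 0) := by
  have hp := Real.pi_pos
  have hc : Real.cos (2 * Real.pi * z.re) ≤ 0 := by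
    rw [← Real.cos_neg]
    apply Real.cos_nonpos_of_pi_div_two_le_of_le <;> nlinarith
  have hre : (ee z).re ≤ 0 := by
    rw [ee_re]
    exact mul_nonpos_of_nonneg_of_nonpos (Real.exp_pos _).le hc
  have hsq : ‖ee z‖ ^ 2 + 1 ≤ ‖ee z - 1‖ ^ 2 := by
    rw [Complex.sq_norm, Complex.sq_norm, normSq_apply, normSq_apply]
    simp only [sub_re, sub_im, one_re, one_im]
    nlinarith
  have hn := norm_nonneg (ee z)
  have hn' := norm_nonneg (ee z - 1)
  have a1 : 1 ≤ ‖ee z - 1‖ := by nlinarith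
  have a2 : ‖ee z‖ ≤ ‖ee z - 1‖ := by nlinarith
  unfold kp
  rw [norm_div, div_le_iff₀ (by linarith)]
  rcases le_total z.im 0 with h | h
  · rw [max_eq_right h]
    simpa using a2
  · rw [max_eq_left h, ← ee_norm]
    nlinarith

theorem small {A : ℝ} (hA : 1 ≤ A) : Real.exp (-2 * Real.pi * A) ≤ 1 / 2 := by
  have hp := Real.pi_gt_three
  have h1 : -2 * Real.pi * A ≤ -1 := by nlinarith
  have h2 := Real.exp_le_exp.2 h1
  have h3 : Real.exp (-1) * Real.exp 1 = 1 := by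
    rw [← Real.exp_add]
    simp
  have h4 := Real.add_one_le_exp (1 : ℝ)
  have h5 := Real.exp_pos (-1)
  nlinarith

theorem bot {z : ℂ} {A : ℝ} (hA : 1 ≤ A) (hz : z.im = -A) :
    ee z ≠ 1 ∧ ‖kp z - 1‖ ≤ 2 * Real.exp (-2 * Real.pi * A) := by
  have hE := small hA
  have hE0 := Real.exp_pos (-2 * Real.pi * A)
  have hq : ‖ee z‖ * Real.exp (-2 * Real.pi * A) = 1 := by
    rw [ee_norm, hz, ← Real.exp_add]
    simp
  have hn := norm_nonneg (ee z)
  have h2 : 2 ≤ ‖ee z‖ := by nlinarith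
  have h3 : ‖ee z‖ - 1 ≤ ‖ee z - 1‖ := by simpa using norm_sub_norm_le (ee z) 1
  have hne : ee z - 1 ≠ 0 := by
    intro h
    rw [h, norm_zero] at h3
    linarith
  refine ⟨sub_ne_zero.1 hne, ?_⟩
  have : kp z - 1 = 1 / (ee z - 1) := by
    unfold kp
    field_simp
    ring
  rw [this, norm_div, norm_one, div_le_iff₀ (by linarith)]
  nlinarith

theorem top {z : ℂ} {A : ℝ} (hA : 1 ≤ A) (hz : z.im = A) :
    ee z ≠ 1 ∧ ‖kp z + ee z‖ ≤
      2 * (Real.exp (-2 * Real.pi * A) * Real.exp (-2 * Real.pi * A)) := by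
  have hE := small hA
  have hE0 := Real.exp_pos (-2 * Real.pi * A)
  have hq : ‖ee z‖ = Real.exp (-2 * Real.pi * A) := by rw [ee_norm, hz]
  have h3 : 1 - ‖ee z‖ ≤ ‖ee z - 1‖ := by
    rw [norm_sub_rev]
    simpa using norm_sub_norm_le 1 (ee z)
  have hne : ee z - 1 ≠ 0 := by
    intro h
    rw [h, norm_zero] at h3
    linarith
  refine ⟨sub_ne_zero.1 hne, ?_⟩
  have : kp z + ee z = ee z * ee z / (ee z - 1) := by
    unfold kp
    field_simp
    ring
  rw [this, norm_div, norm_mul, div_le_iff₀ (by linarith), hq]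
  nlinarith [mul_pos hE0 hE0]

/-- From a bound for a lower integral to a bound for an interval integral. -/
theorem nb (f : ℝ → ℂ) (g : ℝ → ℝ) (a b c Δ : ℝ) (S : Set ℝ) (hS : uIoc a b ⊆ S) (hc : 0 ≤ c)
    (hΔ : 0 ≤ Δ) (h : ∀ x, ‖f x‖ ≤ c * g x)
    (hg : ∫⁻ x in S, ENNReal.ofReal (g x) ≤ ENNReal.ofReal Δ) : ‖∫ x in a..b, f x‖ ≤ c * Δ := by
  rw [intervalIntegral.norm_integral_eq_norm_integral_uIoc,
    ← ENNReal.ofReal_le_ofReal_iff (mul_nonneg hc hΔ), ofReal_norm]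
  refine (enorm_integral_le_lintegral_enorm _).trans ((lintegral_mono_set hS).trans ?_)
  calc ∫⁻ x in S, ‖f x‖ₑ ≤ ∫⁻ x in S, ENNReal.ofReal c * ENNReal.ofReal (g x) := by
        apply lintegral_mono
        intro x
        dsimp only
        rw [← ENNReal.ofReal_mul hc, ← ofReal_norm]
        exact ENNReal.ofReal_le_ofReal (h x)
    _ = ENNReal.ofReal c * ∫⁻ x in S, ENNReal.ofReal (g x) :=
        lintegral_const_mul' _ _ ENNReal.ofReal_ne_top
    _ ≤ ENNReal.ofReal c * ENNReal.ofReal Δ := by gcongr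
    _ = ENNReal.ofReal (c * Δ) := (ENNReal.ofReal_mul hc).symm

/-- A point where the integrand is not much larger than the mean. -/
theorem pick (f : ℝ → ENNReal) (a Δ Δ' : ℝ) (S : Set ℝ) (hS : Icc a (a + 1 / 2) ⊆ S)
    (hΔ : 0 ≤ Δ) (hΔ' : Δ < Δ') (hf : ∫⁻ x in S, f x ≤ ENNReal.ofReal Δ) :
    ∃ x ∈ Icc a (a + 1 / 2), f x ≤ ENNReal.ofReal (2 * Δ') := by
  by_contra hc
  push Not at hc
  have h1 : ∫⁻ _ in Icc a (a + 1 / 2), ENNReal.ofReal (2 * Δ') ≤ ∫⁻ x in Icc a (a + 1 / 2), f x :=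
    setLIntegral_mono' measurableSet_Icc fun x hx => (hc x hx).le
  have h2 := h1.trans ((lintegral_mono_set hS).trans hf)
  rw [setLIntegral_const, Real.volume_Icc, ← ENNReal.ofReal_mul (by linarith),
    ENNReal.ofReal_le_ofReal_iff hΔ] at h2
  linarith

/-- Moving a window of length one. -/
theorem per (F : ℝ → ℂ) (R x₀ : ℝ) (hF : ContinuousOn F (Icc (-R) (R + 1))) (h1 : -R ≤ x₀)
    (h2 : x₀ ≤ R) :
    (∫ x in x₀..x₀ + 1, F x) - ∫ x in (0 : ℝ)..1, F x = ∫ x in (0 : ℝ)..x₀, (F (x + 1) - F x) := by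
  have hI : ∀ a b : ℝ, -R ≤ a → a ≤ R + 1 → -R ≤ b → b ≤ R + 1 →
      IntervalIntegrable F volume a b := fun a b a1 a2 b1 b2 =>
    (hF.mono (uIcc_subset_Icc ⟨a1, a2⟩ ⟨b1, b2⟩)).intervalIntegrable
  have hR : 0 ≤ R := by linarith
  rw [intervalIntegral.integral_interval_sub_interval_comm'
    (hI _ _ h1 (by linarith) (by linarith) (by linarith))
    (hI _ _ (by linarith) (by linarith) (by linarith) (by linarith))
    (hI _ _ h1 (by linarith) (by linarith) (by linarith)),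
    intervalIntegral.integral_sub _ (hI _ _ (by linarith) (by linarith) h1 (by linarith)),
    intervalIntegral.integral_comp_add_right, zero_add]
  have := (hI 1 (x₀ + 1) (by linarith) (by linarith) (by linarith) (by linarith)).comp_add_right 1
  simpa using this

/-- Cauchy's theorem on a rectangle of width one around the zero `u`. -/
theorem rect (Ψ : ℂ → ℂ) (u x₀ A : ℝ) (hA : 0 < A) (h1 : u - 1 < x₀) (h2 : x₀ < u)
    (hd : DifferentiableOn ℂ Ψ (Icc x₀ (x₀ + 1) ×ℂ Icc (-A) A)) (hu : Ψ u = 0) :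
    (∫ x in x₀..x₀ + 1, Ψ (x - A * I) * kp (x - A * I - u)) -
      (∫ x in x₀..x₀ + 1, Ψ (x + A * I) * kp (x + A * I - u)) +
      I * (∫ y in -A..A, Ψ (x₀ + y * I + 1) * kp (x₀ + y * I - u)) -
      I * (∫ y in -A..A, Ψ (x₀ + y * I) * kp (x₀ + y * I - u)) = 0 := by
  set s : Set ℂ := Icc x₀ (x₀ + 1) ×ℂ Icc (-A) A with hs
  have hn : s ∈ 𝓝 (u : ℂ) := by
    have ho : IsOpen (Ioo x₀ (x₀ + 1) ×ℂ Ioo (-A) A) := isOpen_Ioo.reProdIm isOpen_Ioo
    refine Filter.mem_of_superset (ho.mem_nhds ?_) ?_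
    · simp only [mem_reProdIm, ofReal_re, ofReal_im, mem_Ioo]
      refine ⟨⟨h2, by linarith⟩, by linarith, hA⟩
    · intro z hz
      exact ⟨Ioo_subset_Icc_self hz.1, Ioo_subset_Icc_self hz.2⟩
  let q : ℂ → ℂ := fun z => ee (z - u)
  have hq : Differentiable ℂ q := ee_diff.comp (by fun_prop)
  have hqu : q u = 1 := by simp [q, ee_zero]
  let G : ℂ → ℂ := fun z => dslope Ψ u z * q z / dslope q u z
  have hG : ∀ z : ℂ, z ≠ u → G z = Ψ z * kp (z - u) := by
    intro z hz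
    have hz' : z - u ≠ 0 := sub_ne_zero.2 hz
    simp only [G]
    rw [dslope_of_ne _ hz, dslope_of_ne _ hz, slope_def_field, slope_def_field, hu, hqu]
    unfold kp
    simp only [q]
    field_simp
    ring
  have hne : ∀ z ∈ s, dslope q u z ≠ 0 := by
    intro z hz
    by_cases h : z = u
    · rw [h, dslope_same]
      have hd1 : HasDerivAt q (exp (2 * Real.pi * I * ((u : ℂ) - u)) * (2 * Real.pi * I * 1)) u :=
        (((hasDerivAt_id (u : ℂ)).sub_const (u : ℂ)).const_mul (2 * Real.pi * I)).cexp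
      rw [hd1.deriv]
      exact mul_ne_zero (exp_ne_zero _) (by simp)
    · have hz' : z - u ≠ 0 := sub_ne_zero.2 h
      rw [dslope_of_ne _ h, slope_def_field, hqu]
      refine div_ne_zero (sub_ne_zero.2 (ee_ne_one hz' ?_ ?_)) hz'
      · have := hz.1.1
        simp only [sub_re, ofReal_re]
        linarith
      · have := hz.1.2
        simp only [sub_re, ofReal_re]
        linarith
  have hGd : DifferentiableOn ℂ G s :=
    (((differentiableOn_dslope hn).2 hd).mul hq.differentiableOn).div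
      ((differentiableOn_dslope hn).2 hq.differentiableOn) hne
  have key := integral_boundary_rect_eq_zero_of_differentiableOn G ⟨x₀, -A⟩ ⟨x₀ + 1, A⟩ (by
    dsimp only
    rw [uIcc_of_le (by linarith), uIcc_of_le (by linarith)]
    exact hGd)
  dsimp only at key
  have e1 : (fun x : ℝ => G (x + (-A : ℝ) * I)) =
      fun x : ℝ => Ψ (x - A * I) * kp (x - A * I - u) := by
    funext x
    have : (x + (-A : ℝ) * I : ℂ) = x - A * I := by
      push_cast
      ring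
    rw [this, hG]
    intro h
    have := congrArg Complex.im h
    simp at this
    linarith
  have e2 : (fun x : ℝ => G (x + A * I)) = fun x : ℝ => Ψ (x + A * I) * kp (x + A * I - u) := by
    funext x
    rw [hG]
    intro h
    have := congrArg Complex.im h
    simp at this
    linarith
  have e3 : (fun y : ℝ => G ((x₀ + 1 : ℝ) + y * I)) =
      fun y : ℝ => Ψ (x₀ + y * I + 1) * kp (x₀ + y * I - u) := by
    funext y
    have : ((x₀ + 1 : ℝ) + y * I : ℂ) = x₀ + y * I + 1 := by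
      push_cast
      ring
    rw [this, hG, show (x₀ + y * I + 1 - u : ℂ) = x₀ + y * I - u + 1 by ring, kp_add_one]
    intro h
    have := congrArg Complex.re h
    simp at this
    linarith
  have e4 : (fun y : ℝ => G (x₀ + y * I)) =
      fun y : ℝ => Ψ (x₀ + y * I) * kp (x₀ + y * I - u) := by
    funext y
    rw [hG]
    intro h
    have := congrArg Complex.re h
    simp at this
    linarith
  rw [e1, e2, e3, e4, smul_eq_mul, smul_eq_mul] at key
  exact key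

theorem kp_cont (p : ℝ → ℂ) (hp : Continuous p) (h : ∀ x, ee (p x) ≠ 1) :
    Continuous fun x => kp (p x) :=
  (ee_cont.comp hp).div ((ee_cont.comp hp).sub continuous_const) fun x => sub_ne_zero.2 (h x)

/-- The estimate for one zero. -/
theorem one (Ψ : ℂ → ℂ) (K A Δ Δ' : ℝ) (hK : 1 ≤ K) (hA : 1 ≤ A) (hΔ : 0 ≤ Δ) (hΔ' : Δ < Δ')
    (hd : DifferentiableOn ℂ Ψ {z | |z.re| ≤ K + 2 ∧ |z.im| ≤ A})
    (H1 : ∫⁻ x in Set.Icc (-K - 1) (K + 1), ∫⁻ y in Set.Icc (-A) A, ENNReal.ofReal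
      (‖Ψ (x + y * I + 1) - Ψ (x + y * I)‖ * Real.exp (-2 * Real.pi * max y 0)) ≤
        ENNReal.ofReal Δ)
    (H2 : ∫⁻ x in Set.Icc (-K - 1) (K + 1), ENNReal.ofReal (‖Ψ (x - A * I + 1) - Ψ (x - A * I)‖ +
      Real.exp (-2 * Real.pi * A) * ‖Ψ (x + A * I + 1) - Ψ (x + A * I)‖) ≤ ENNReal.ofReal Δ)
    (H3 : ∫⁻ x in Set.Icc (-K - 1) (K + 1), ENNReal.ofReal (Real.exp (-2 * Real.pi * A) *
      (‖Ψ (x - A * I)‖ + Real.exp (-2 * Real.pi * A) * ‖Ψ (x + A * I)‖)) ≤ ENNReal.ofReal Δ)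
    (u : ℝ) (hu : |u| ≤ K) (h0 : Ψ u = 0) :
    ‖(∫ x in (0 : ℝ)..1, Ψ (x - A * I)) +
      (∫ x in (0 : ℝ)..1, Ψ (x + A * I) * ee (x + A * I)) * ee (-u)‖ ≤ 8 * Δ' := by
  obtain ⟨u1, u2⟩ := abs_le.1 hu
  have hE0 := Real.exp_pos (-2 * Real.pi * A)
  obtain ⟨x₀, ⟨x1, x2⟩, hx⟩ := pick _ (u - 3 / 4) Δ Δ' _
    (Icc_subset_Icc (by linarith) (by linarith)) hΔ hΔ' H1
  have hc := hd.continuousOn
  have cb : ContinuousOn (fun x : ℝ => Ψ (x - A * I)) (Icc (-(K + 1)) (K + 1 + 1)) := by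
    refine hc.comp (by fun_prop) fun x hx => ⟨?_, ?_⟩
    · simp only [sub_re, ofReal_re, mul_re, I_re, I_im, ofReal_im, mul_zero, mul_one, sub_zero]
      exact abs_le.2 ⟨by linarith [hx.1], by linarith [hx.2]⟩
    · simp [abs_of_nonneg (show 0 ≤ A by linarith)]
  have ct : ContinuousOn (fun x : ℝ => Ψ (x + A * I)) (Icc (-(K + 1)) (K + 1 + 1)) := by
    refine hc.comp (by fun_prop) fun x hx => ⟨?_, ?_⟩
    · simp only [add_re, ofReal_re, mul_re, I_re, I_im, ofReal_im, mul_zero, mul_one, sub_zero,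
        add_zero]
      exact abs_le.2 ⟨by linarith [hx.1], by linarith [hx.2]⟩
    · simp [abs_of_nonneg (show 0 ≤ A by linarith)]
  have cl : ContinuousOn (fun y : ℝ => Ψ (x₀ + y * I)) (Icc (-A) A) := by
    refine hc.comp (by fun_prop) fun y hy => ⟨?_, ?_⟩
    · simp only [add_re, ofReal_re, mul_re, I_re, I_im, ofReal_im, mul_zero, mul_one, sub_zero,
        add_zero]
      exact abs_le.2 ⟨by linarith, by linarith⟩
    · simpa using abs_le.2 hy
  have cr : ContinuousOn (fun y : ℝ => Ψ (x₀ + y * I + 1)) (Icc (-A) A) := by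
    refine hc.comp (by fun_prop) fun y hy => ⟨?_, ?_⟩
    · simp only [add_re, ofReal_re, mul_re, I_re, I_im, ofReal_im, mul_zero, mul_one, sub_zero,
        add_zero, one_re]
      exact abs_le.2 ⟨by linarith, by linarith⟩
    · simpa using abs_le.2 hy
  have hb : ∀ x : ℝ, (x - A * I - u : ℂ).im = -A := fun x => by simp
  have ht : ∀ x : ℝ, (x + A * I - u : ℂ).im = A := fun x => by simp
  have hv : ∀ y : ℝ, (x₀ + y * I - u : ℂ).re = x₀ - u := fun y => by simp
  have kb : Continuous fun x : ℝ => kp (x - A * I - u) :=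
    kp_cont _ (by fun_prop) fun x => (bot hA (hb x)).1
  have kt : Continuous fun x : ℝ => kp (x + A * I - u) :=
    kp_cont _ (by fun_prop) fun x => (top hA (ht x)).1
  have kv : Continuous fun y : ℝ => kp (x₀ + y * I - u) := by
    refine kp_cont _ (by fun_prop) fun y => ee_ne_one ?_ (by rw [hv]; linarith)
      (by rw [hv]; linarith)
    intro h
    have := hv y
    rw [h, zero_re] at this
    linarith
  have et : Continuous fun x : ℝ => ee (x + A * I) := ee_cont.comp (by fun_prop)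
  have s1 : uIcc x₀ (x₀ + 1) ⊆ Icc (-(K + 1)) (K + 1 + 1) :=
    uIcc_subset_Icc ⟨by linarith, by linarith⟩ ⟨by linarith, by linarith⟩
  have s2 : uIoc x₀ (x₀ + 1) ⊆ Icc (-K - 1) (K + 1) := uIoc_subset_uIcc.trans
    (uIcc_subset_Icc ⟨by linarith, by linarith⟩ ⟨by linarith, by linarith⟩)
  have s3 : uIoc 0 x₀ ⊆ Icc (-K - 1) (K + 1) := uIoc_subset_uIcc.trans
    (uIcc_subset_Icc ⟨by linarith, by linarith⟩ ⟨by linarith, by linarith⟩)
  have s4 : uIcc (-A) A = Icc (-A) A := uIcc_of_le (by linarith)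
  have key := rect Ψ u x₀ A (by linarith) (by linarith) (by linarith) (hd.mono fun z hz =>
    ⟨abs_le.2 ⟨by linarith [hz.1.1], by linarith [hz.1.2]⟩, abs_le.2 hz.2⟩) h0
  have b1 : ‖(∫ x in x₀..x₀ + 1, Ψ (x - A * I) * kp (x - A * I - u)) -
      ∫ x in x₀..x₀ + 1, Ψ (x - A * I)‖ ≤ 2 * Δ := by
    rw [← intervalIntegral.integral_sub
      ((cb.mono s1).fun_mul kb.continuousOn).intervalIntegrable (cb.mono s1).intervalIntegrable]
    refine nb _ _ _ _ _ _ _ s2 (by norm_num) hΔ (fun x => ?_) H3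
    rw [← mul_sub_one, norm_mul]
    have := mul_le_mul_of_nonneg_left (bot hA (hb x)).2 (norm_nonneg (Ψ (x - A * I)))
    nlinarith [mul_nonneg (mul_pos hE0 hE0).le (norm_nonneg (Ψ (x + A * I)))]
  have b2 : ‖(∫ x in x₀..x₀ + 1, Ψ (x + A * I) * kp (x + A * I - u)) +
      (∫ x in x₀..x₀ + 1, Ψ (x + A * I) * ee (x + A * I)) * ee (-u)‖ ≤ 2 * Δ := by
    rw [← intervalIntegral.integral_mul_const, ← intervalIntegral.integral_add
      ((ct.mono s1).fun_mul kt.continuousOn).intervalIntegrable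
      (((ct.mono s1).fun_mul et.continuousOn).fun_mul continuousOn_const).intervalIntegrable]
    refine nb _ _ _ _ _ _ _ s2 (by norm_num) hΔ (fun x => ?_) H3
    rw [mul_assoc, ← ee_add, ← mul_add, norm_mul, ← sub_eq_add_neg]
    have := mul_le_mul_of_nonneg_left (top hA (ht x)).2 (norm_nonneg (Ψ (x + A * I)))
    nlinarith [mul_nonneg hE0.le (norm_nonneg (Ψ (x - A * I)))]
  have b3 : ‖(∫ y in -A..A, Ψ (x₀ + y * I + 1) * kp (x₀ + y * I - u)) -
      ∫ y in -A..A, Ψ (x₀ + y * I) * kp (x₀ + y * I - u)‖ ≤ 1 * (2 * Δ') := by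
    rw [← intervalIntegral.integral_sub
      ((cr.mono s4.le).fun_mul kv.continuousOn).intervalIntegrable
      ((cl.mono s4.le).fun_mul kv.continuousOn).intervalIntegrable]
    refine nb _ _ _ _ _ _ _ (uIoc_subset_uIcc.trans s4.le) (by norm_num) (by linarith)
      (fun y => ?_) hx
    rw [← sub_mul, norm_mul, one_mul]
    refine mul_le_mul_of_nonneg_left ?_ (norm_nonneg _)
    have := kp_vert (z := x₀ + y * I - u) (by rw [hv]; linarith) (by rw [hv]; linarith)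
    simpa using this
  have b4 : ‖(∫ x in x₀..x₀ + 1, Ψ (x - A * I)) - ∫ x in (0 : ℝ)..1, Ψ (x - A * I)‖ ≤ 1 * Δ := by
    rw [per _ (K + 1) x₀ cb (by linarith) (by linarith)]
    refine nb _ _ _ _ _ _ _ s3 (by norm_num) hΔ (fun x => ?_) H2
    rw [show (((x + 1 : ℝ) : ℂ) - A * I) = x - A * I + 1 by push_cast; ring]
    nlinarith [mul_nonneg hE0.le (norm_nonneg (Ψ (x + A * I + 1) - Ψ (x + A * I)))]
  have b5 : ‖(∫ x in x₀..x₀ + 1, Ψ (x + A * I) * ee (x + A * I)) -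
      ∫ x in (0 : ℝ)..1, Ψ (x + A * I) * ee (x + A * I)‖ ≤ 1 * Δ := by
    rw [per _ (K + 1) x₀ (ct.fun_mul et.continuousOn) (by linarith) (by linarith)]
    refine nb _ _ _ _ _ _ _ s3 (by norm_num) hΔ (fun x => ?_) H2
    rw [show (((x + 1 : ℝ) : ℂ) + A * I) = x + A * I + 1 by push_cast; ring, ee_add_one,
      ← sub_mul, norm_mul, ee_norm, show (x + A * I : ℂ).im = A by simp]
    nlinarith [norm_nonneg (Ψ (x - A * I + 1) - Ψ (x - A * I))]
  have hu1 : ‖ee (-u)‖ = 1 := by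
    rw [ee_norm]
    simp
  generalize (∫ x in x₀..x₀ + 1, Ψ (x - A * I) * kp (x - A * I - u)) = B at *
  generalize (∫ x in x₀..x₀ + 1, Ψ (x + A * I) * kp (x + A * I - u)) = T at *
  generalize (∫ y in -A..A, Ψ (x₀ + y * I + 1) * kp (x₀ + y * I - u)) = R at *
  generalize (∫ y in -A..A, Ψ (x₀ + y * I) * kp (x₀ + y * I - u)) = L at *
  generalize (∫ x in x₀..x₀ + 1, Ψ (x - A * I)) = a at *
  generalize (∫ x in x₀..x₀ + 1, Ψ (x + A * I) * ee (x + A * I)) = b at *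
  generalize (∫ x in (0 : ℝ)..1, Ψ (x - A * I)) = c₀ at *
  generalize (∫ x in (0 : ℝ)..1, Ψ (x + A * I) * ee (x + A * I)) = c₁ at *
  generalize ee (-u) = e at *
  have : c₀ + c₁ * e = (T + b * e) - (B - a) - I * (R - L) - (a - c₀) - (b - c₁) * e := by
    linear_combination key
  rw [this]
  have n1 := norm_sub_le ((T + b * e) - (B - a) - I * (R - L) - (a - c₀)) ((b - c₁) * e)
  have n2 := norm_sub_le ((T + b * e) - (B - a) - I * (R - L)) (a - c₀)
  have n3 := norm_sub_le ((T + b * e) - (B - a)) (I * (R - L))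
  have n4 := norm_sub_le (T + b * e) (B - a)
  rw [norm_mul, hu1] at n1
  rw [norm_mul, norm_I] at n3
  linarith

theorem near (θ : ℝ) : 4 * |θ - round θ| ≤ ‖ee θ - 1‖ := by
  have hp := Real.pi_pos
  have h1 : ee θ = exp (I * (2 * Real.pi * (θ - round θ) : ℝ)) := by
    have : (θ : ℂ) = (θ - round θ : ℂ) + (round θ : ℤ) := by ring
    rw [this, ee_add, ee_int, mul_one]
    unfold ee
    congr 1
    push_cast
    ring
  rw [h1, norm_exp_I_mul_ofReal_sub_one, Real.norm_eq_abs, abs_mul, abs_two]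
  have h2 := abs_sub_round θ
  have h3 : |2 * Real.pi * (θ - round θ) / 2| = Real.pi * |θ - round θ| := by
    rw [show 2 * Real.pi * (θ - round θ) / 2 = Real.pi * (θ - round θ) by ring, abs_mul,
      abs_of_pos hp]
  have h4 := Real.mul_abs_le_abs_sin (x := 2 * Real.pi * (θ - round θ) / 2) (by rw [h3]; nlinarith)
  rw [h3, show 2 / Real.pi * (Real.pi * |θ - round θ|) = 2 * |θ - round θ| by field_simp] at h4
  linarith

theorem det : DetStmt := by
  intro Ψ K A Δ ε hK hA hΔ hε hd H1 H2 H3 H4 u u' hu hu' h0 h0'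
  have k1 := one Ψ K A Δ (ε * ‖∫ x in (0 : ℝ)..1, Ψ (x - A * I)‖ / 30) hK hA hΔ (by linarith) hd
    H1 H2 H3 u hu h0
  have k2 := one Ψ K A Δ (ε * ‖∫ x in (0 : ℝ)..1, Ψ (x - A * I)‖ / 30) hK hA hΔ (by linarith) hd
    H1 H2 H3 u' hu' h0'
  generalize (∫ x in (0 : ℝ)..1, Ψ (x - A * I)) = c₀ at *
  generalize (∫ x in (0 : ℝ)..1, Ψ (x + A * I) * ee (x + A * I)) = c₁ at *
  have hn := norm_nonneg c₀
  have hpos : 0 < ε * ‖c₀‖ := by linarith
  have hε0 : 0 < ε := by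
    by_contra h
    nlinarith [not_lt.1 h]
  have hc0 : 0 < ‖c₀‖ := by
    by_contra h
    nlinarith [not_lt.1 h]
  have hu1 : ‖ee (-u')‖ = 1 := by
    rw [ee_norm]
    simp
  have a1 : ‖c₀‖ ≤ ‖c₀ + c₁ * ee (-u')‖ + ‖c₁‖ := by
    have := norm_sub_le (c₀ + c₁ * ee (-u')) (c₁ * ee (-u'))
    rwa [add_sub_cancel_right, norm_mul, hu1, mul_one] at this
  have a2 : ‖c₁‖ * ‖ee (u' - u : ℝ) - 1‖ ≤ ‖c₀ + c₁ * ee (-u)‖ + ‖c₀ + c₁ * ee (-u')‖ := by
    have h := norm_sub_le (c₀ + c₁ * ee (-u)) (c₀ + c₁ * ee (-u'))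
    have e : ee (-u) = ee (u' - u : ℝ) * ee (-u') := by
      rw [← ee_add]
      congr 1
      push_cast
      ring
    have e2 : c₀ + c₁ * ee (-u) - (c₀ + c₁ * ee (-u')) =
        c₁ * (ee (u' - u : ℝ) - 1) * ee (-u') := by
      rw [e]
      ring
    rwa [e2, norm_mul, norm_mul, hu1, mul_one] at h
  have a3 := near (u' - u)
  refine ⟨round (u' - u), ?_⟩
  have a4 : ‖c₀‖ / 2 ≤ ‖c₁‖ := by nlinarith
  have a5 := abs_nonneg (u' - u - round (u' - u))
  by_contra hc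
  have hc' := not_le.1 hc
  have a6 : ‖c₀‖ / 2 * (4 * ε) ≤ ‖c₁‖ * ‖ee (u' - u : ℝ) - 1‖ :=
    mul_le_mul a4 (by linarith) (by linarith) (norm_nonneg _)
  nlinarith

end Pool.Agent.MP_ca0a54_nt.H18
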